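import Pool.Agent.Helper50.FdT.Pat

/-!
# Induced copies of `K_{1,s,s}^{(3)}`
-/

set_option autoImplicit false

open Finset
open scoped Classical

namespace Pool.Agent.Helper50.FdT

open Pool.Agent.N442.LP Pool.Agent.N442.K4

/-- the class of a vertex of `K_{1,s,s}` -/
def part {s : ℕ} : Option (Fin s ⊕ Fin s) → Fin 3
  | none => 0
  | some (Sum.inl _) => 1
  | some (Sum.inr _) => 2

/-- an induced copy of the complete 3-partite 3-graph with classes of `1`, `s` and `s` vertices -/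
def IsInd (s : ℕ) {n : ℕ} (G : Finset (Finset (Fin n))) (f : Option (Fin s ⊕ Fin s) → Fin n) :
    Prop :=
  Function.Injective f ∧ ∀ a b c, a ≠ b → a ≠ c → b ≠ c →
    (({f a, f b, f c} : Finset (Fin n)) ∈ G ↔ part a ≠ part b ∧ part a ≠ part c ∧ part b ≠ part c)

/-- the positions of a copy of `K_{1,s,s}` -/
def ps {k s : ℕ} (u i z : Fin k) : Option (Fin s ⊕ Fin s) → Fin k × Fin (s + 2)
  | none => (u, 0)
  | some (Sum.inl p) => (i, ix p)
  | some (Sum.inr q) => (z, ix q)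

section
variable {k n s : ℕ} {G : Finset (Finset (Fin n))} {P : Fin k → Fin k → Fin k → Prop}
  {y : Fin k → Fin (s + 2) → Fin n}

theorem ps_inj {u i z : Fin k} (hui : u ≠ i) (huz : u ≠ z) (hiz : i ≠ z) :
    Function.Injective (ps (s := s) u i z) := by
  rintro (_ | p | p) (_ | q | q) h
  · rfl
  · exact absurd (congrArg Prod.fst h) hui
  · exact absurd (congrArg Prod.fst h) huz
  · exact absurd (congrArg Prod.fst h) hui.symm
  · rw [ix_inj (congrArg Prod.snd h)]
  · exact absurd (congrArg Prod.fst h) hiz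
  · exact absurd (congrArg Prod.fst h) huz.symm
  · exact absurd (congrArg Prod.fst h) hiz.symm
  · rw [ix_inj (congrArg Prod.snd h)]

/-- the induced copy of `K_{1,s,s}` given by three classes -/
theorem tri_real (hR : Real G P y) (hI : Inj y) (hP : IsPat P) {u i z : Fin k} (hui : u ≠ i)
    (huz : u ≠ z) (hiz : i ≠ z) (f1 : Far P i u) (f2 : Far P i z) (f3 : ¬ P z z u) (h : P u i z) :
    HasP (IsInd s G) y := by
  refine ⟨ps u i z, ps_inj hui huz hiz, ?_, ?_⟩
  · intro a b hab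
    have h1 := hI _ _ _ _ hab
    exact ps_inj hui huz hiz (Prod.ext h1.1 h1.2)
  · intro a b c hab hac hbc
    have key : (({y (ps u i z a).1 (ps u i z a).2, y (ps u i z b).1 (ps u i z b).2,
        y (ps u i z c).1 (ps u i z c).2} : Finset (Fin n)) ∈ G ↔
        P (ps (s := s) u i z a).1 (ps (s := s) u i z b).1 (ps (s := s) u i z c).1) := by
      refine hR _ _ _ _ _ _ ?_ ?_ ?_
      · exact fun h => hab (ps_inj hui huz hiz h)
      · exact fun h => hbc (ps_inj hui huz hiz h)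
      · exact fun h => hac (ps_inj hui huz hiz h)
    rw [key]
    have i1 := hP.irr i
    have i2 := hP.irr z
    have t1 := h
    have t2 := hP.s12 t1
    have t3 := hP.s23 t1
    have t4 := hP.s23 t2
    have t5 := hP.s12 t3
    have t6 := hP.s12 t4
    have g : ∀ {a b : Fin k}, ¬ P a a b → (¬ P a a b ∧ ¬ P a b a ∧ ¬ P b a a) := fun {a b} h =>
      ⟨h, fun q => h (hP.s23 q), fun q => h (hP.s23 (hP.s12 q))⟩
    obtain ⟨a1, a2, a3⟩ := g f1.1
    obtain ⟨b1, b2, b3⟩ := g f2.1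
    obtain ⟨c1, c2, c3⟩ := g f2.2
    obtain ⟨d1, d2, d3⟩ := g f3
    rcases a with _ | p | p <;> rcases b with _ | q | q <;> rcases c with _ | r | r <;>
      simp_all [ps, part]

theorem tri_of_bad3 (hR : Real G P y) (hI : Inj y) (hP : IsPat P) (hO : ∀ i j, P i i j → ¬ P j j i)
    {i j x : Fin k} (hij : i ≠ j) (hix : i ≠ x) (hjx : j ≠ x) (f1 : Far P i j) (f2 : Far P i x)
    (h : P i j x) : HasP (IsInd s G) y := by
  by_cases hx : P x x j
  · have hj : ¬ P j j x := hO _ _ hx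
    exact tri_real hR hI hP hix.symm hjx.symm hij f2 f1 hj (hP.s12 (hP.s23 h))
  · exact tri_real hR hI hP hij.symm hjx hix f1 f2 hx (hP.s12 h)

end

/-- the configuration `K_{1,s,s}` -/
def BT (s k T n : ℕ) (G : Finset (Finset (Fin n))) (y : Fin k → Fin T → Fin n) : Prop :=
  HasP (IsInd s G) y

/-- **Local theorem** for `m = 4` and induced copies of `K_{1,s,s}`. -/
theorem locT (k s : ℕ) (hk : 0 < k) : ∃ T : ℕ, 0 < T ∧
    ∀ (n : ℕ) (G : Finset (Finset (Fin n))), KFree 4 G →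
    ∀ (X : Finset (Finset (Fin k))) (y : Fin k → Fin T → Fin n),
    (∀ f : Fin k → Fin T, (fun i => y i (f i)) ∈ SX G X) → (∀ i, Function.Injective (y i)) →
    rho 3 * (k : ℝ) ^ 3 < ((QT X).card : ℝ) → BT s k T n G y := by
  obtain ⟨T', hT, h⟩ := loc 4 k s
  refine ⟨T', by omega, fun n G hK X y hsel hinj hX => ?_⟩
  obtain ⟨P, z, hP, hz, hI, hR, hPX⟩ := h n G hK X y hsel hinj
  have : Nonempty (Fin k) := ⟨⟨0, hk⟩⟩
  by_contra hno
  have h3 : ¬ HasP (IsInd s G) (fun i a => y i (z i a)) := fun h => hno (h.comp hz)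
  have hb := pat4M hK hP hR hI
    (fun i j x hij hix hjx f1 f2 hp =>
      h3 (tri_of_bad3 hR hI hP (oriented hK hP hR hI) hij hix hjx f1 f2 hp))
    (fun _ => 1 / (k : ℝ)) (smp_uniform hk)
  exact absurd hX (not_lt.mpr (rho_le (by norm_num) (T_uniform hPX) hb))

/-- **`K_4^3`-free 3-graphs with few induced copies of `K_{1,s,s}^{(3)}`** -/
theorem thmT (s : ℕ) {ε : ℝ} (hε : 0 < ε) : ∃ δ : ℝ, 0 < δ ∧ ∃ N : ℕ,
    ∀ n : ℕ, N ≤ n → ∀ G : Finset (Finset (Fin n)), (∀ e ∈ G, e.card = 3) → KFree 4 G →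
      dn (Option (Fin s ⊕ Fin s)) (IsInd s G) ≤ δ →
      (G.card : ℝ) ≤ (rho 3 + ε) * (n.choose 3 : ℝ) :=
  main_abs 4 (rho 3) (BT s) (fun n G => dn (Option (Fin s ⊕ Fin s)) (IsInd s G))
    (rho_nonneg (by norm_num))
    (fun k T => ⟨((k * T : ℕ) : ℝ) ^ (Fintype.card (Option (Fin s ⊕ Fin s))), by positivity,
        fun n hn G => count_gen_real k T n hn (IsInd s G)⟩)
    (fun k hk => locT k s hk) hε

end Pool.Agent.Helper50.FdT
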