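import Pool.Agent.N442.K4.Cfg
import Pool.Agent.Helper35.FdM.Main

/-!
# Patterns of `K_4^3`-free 3-graphs without triads

The pattern is contained in the Fon-der-Flaass 3-graph of the oriented graph of its arcs
`i → j` (`P i i j`); the triples of classes which form an induced path of this oriented graph and are
not in the pattern are the marked ones.
-/

set_option autoImplicit false

open Finset
open scoped Classical

namespace Pool.Agent.Helper50.FdT

open Pool.Agent.N442.LP Pool.Agent.N442.K4

open Pool.Agent.H122R2.FdF (Oriented)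
open Pool.Agent.Helper35.FdM (Path3 PT Marks kk Mk main_marked)

theorem PT_s12 {V : Type} {R : V → V → Prop} {a b c : V} (h : PT R a b c) : PT R b a c := by
  unfold PT at h ⊢; tauto

theorem PT_s23 {V : Type} {R : V → V → Prop} {a b c : V} (h : PT R a b c) : PT R a c b := by
  unfold PT at h ⊢; tauto

open Pool.Agent.H122R2.FdF (H N A) in
/-- an induced path is an edge of the Fon-der-Flaass 3-graph -/
theorem H_path {V : Type} (R : V → V → Prop) (hO : Oriented R) (a b c : V) (h : PT R a b c) :
    H R a b c = 0 := by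
  unfold PT Path3 at h
  unfold H N A
  rcases tri hO a b with ⟨h1, h2⟩ | ⟨h1, h2⟩ | ⟨h1, h2⟩ <;>
    rcases tri hO a c with ⟨h3, h4⟩ | ⟨h3, h4⟩ | ⟨h3, h4⟩ <;>
    rcases tri hO b c with ⟨h5, h6⟩ | ⟨h5, h6⟩ | ⟨h5, h6⟩ <;>
    simp only [h1, h2, h3, h4, h5, h6, or_true, or_false, if_true, if_false, false_and, and_false,
      not_true_eq_false, not_false_eq_true, and_true, true_and] at h ⊢ <;>
    norm_num

/-- the density of a pattern which is contained in a Fon-der-Flaass 3-graph and has no `K_4` on an
induced oriented 4-cycle -/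
theorem fdf_boundM {V : Type} [Fintype V] {P : V → V → V → Prop} (hP : IsPat P)
    (hO : ∀ i j, P i i j → ¬ P j j i)
    (h2 : ∀ a b c, b ≠ c → P a a b → P a a c → ¬ P a b c)
    (h0 : ∀ a b c, ¬ P a a b → ¬ P b b a → ¬ P a a c → ¬ P c c a → ¬ P a b c)
    (h4 : ∀ a b c d, P a a b → P b b c → P c c d → P d d a → ¬ P a a c → ¬ P c c a →
      ¬ P b b d → ¬ P d d b → ¬ (P a b c ∧ P b c d ∧ P c d a ∧ P d a b))
    (w : V → ℝ) (hw : Smp w) : 4 ≤ ((3 : ℕ) : ℝ) ^ 2 * (1 - T (ind P) w w w) := by
  set R : V → V → Prop := fun i j => P i i j with hRdef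
  set K : V → V → V → Prop := fun a b c => PT R a b c ∧ ¬ P a b c with hKdef
  have hOR : Oriented R := hO
  have hK : Marks R K := by
    refine ⟨?_, ?_, ?_, ?_⟩
    · rintro a b c ⟨h, h'⟩
      exact ⟨PT_s12 h, fun q => h' (hP.s12 q)⟩
    · rintro a b c ⟨h, h'⟩
      exact ⟨PT_s23 h, fun q => h' (hP.s23 q)⟩
    · rintro a b c ⟨h, -⟩
      exact h
    · intro a b c d u1 u2 u3 u4 v1 v2 v3 v4
      by_contra hcon
      push Not at hcon
      obtain ⟨k1, k2, k3, k4⟩ := hcon
      have p1 : PT R a b c := Or.inl ⟨u1, u2, v1, v2⟩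
      have p2 : PT R b c d := Or.inl ⟨u2, u3, v3, v4⟩
      have p3 : PT R c d a := Or.inl ⟨u3, u4, v2, v1⟩
      have p4 : PT R d a b := Or.inl ⟨u4, u1, v4, v3⟩
      refine h4 a b c d u1 u2 u3 u4 v1 v2 v3 v4 ⟨?_, ?_, ?_, ?_⟩
      · by_contra h
        exact k1 ⟨p1, h⟩
      · by_contra h
        exact k2 ⟨p2, h⟩
      · by_contra h
        exact k3 ⟨p3, h⟩
      · by_contra h
        exact k4 ⟨p4, h⟩
  have h := main_marked R K w hOR hK hw.1 hw.2
  have e : Pool.Agent.H122R2.FdF.T R w + Mk K w ≤ 1 - T (ind P) w w w := by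
    have e1 : (1 : ℝ) = ∑ a, ∑ b, ∑ c, w a * w b * w c := by
      have : ∑ a, ∑ b, ∑ c, w a * w b * w c = (∑ a, w a) * (∑ b, w b) * ∑ c, w c := by
        rw [sum_mul_sum, sum_mul]
        refine sum_congr rfl fun a _ => ?_
        rw [sum_mul]
        refine sum_congr rfl fun b _ => ?_
        rw [mul_sum]
      rw [this, hw.2]; norm_num
    rw [e1]
    unfold Pool.Agent.H122R2.FdF.T T Mk
    rw [← sum_sub_distrib, ← sum_add_distrib]
    refine sum_le_sum fun a _ => ?_
    rw [← sum_sub_distrib, ← sum_add_distrib]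
    refine sum_le_sum fun b _ => ?_
    rw [← sum_sub_distrib, ← sum_add_distrib]
    refine sum_le_sum fun c _ => ?_
    have hwn : 0 ≤ w a * w b * w c := mul_nonneg (mul_nonneg (hw.1 a) (hw.1 b)) (hw.1 c)
    have key : Pool.Agent.H122R2.FdF.H R a b c + kk K a b c ≤ 1 - ind P a b c := by
      by_cases hp : P a b c
      · have hba : P b a c := hP.s12 hp
        have hca : P c a b := hP.s12 (hP.s23 hp)
        have k : Pool.Agent.H122R2.FdF.H R a b c = 0 := by
          refine H_zero _ hO a b c ?_ ?_ ?_ ?_ ?_ ?_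
          · intro u v
            by_cases hbc : b = c
            · subst hbc
              exact hO _ _ u (hP.s23 hba)
            · exact h2 a b c hbc u v hp
          · intro u v
            by_cases hac : a = c
            · subst hac
              exact hO _ _ u (hP.s23 hp)
            · exact h2 b a c hac u v hba
          · intro u v
            by_cases hab : a = b
            · subst hab
              exact hO _ _ u hp
            · exact h2 c a b hab u v hca
          · intro u1 u2 u3
            by_contra u4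
            exact h0 a b c u1 u2 u3 u4 hp
          · intro u1 u2 u3
            by_contra u4
            exact h0 b a c u2 u1 u3 u4 hba
          · intro u1 u2 u3
            by_contra u4
            exact h0 c a b u2 u1 u4 u3 hca
        have hi : ind P a b c = 1 := by unfold ind; rw [if_pos hp]
        have hk : kk K a b c = 0 := by
          unfold kk
          rw [if_neg]
          exact fun q => q.2 hp
        rw [k, hi, hk]; norm_num
      · have hi : ind P a b c = 0 := by unfold ind; rw [if_neg hp]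
        rw [hi]
        by_cases hk : K a b c
        · rw [H_path R hO a b c hk.1]
          unfold kk
          rw [if_pos hk]; norm_num
        · have := H_le_one R hO a b c
          unfold kk
          rw [if_neg hk]
          linarith
    have e2 : ∀ x z y : ℝ, x + z ≤ 1 - y →
        w a * w b * w c * x + w a * w b * w c * z ≤ w a * w b * w c - y * w a * w b * w c := by
      intro x z y hxy
      have := mul_le_mul_of_nonneg_left hxy hwn
      linarith
    exact e2 _ _ _ key
  have : ((3 : ℕ) : ℝ) ^ 2 = 9 := by norm_num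
  rw [this]
  linarith

/-- **Patterns of `K_4^3`-free 3-graphs**: without an isolated class in a triple of the pattern the
density is at most `5/9`. -/
theorem pat4M {k n t : ℕ} {G : Finset (Finset (Fin n))} (hK : KFree 4 G)
    {P : Fin k → Fin k → Fin k → Prop} (hP : IsPat P) {y : Fin k → Fin (t + 2) → Fin n}
    (hR : Real G P y) (hI : Inj y)
    (hT : ∀ i j x, i ≠ j → i ≠ x → j ≠ x → Far P i j → Far P i x → ¬ P i j x)
    (w : Fin k → ℝ) (hw : Smp w) : 4 ≤ ((3 : ℕ) : ℝ) ^ 2 * (1 - T (ind P) w w w) := by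
  have hcap := fun A S hAS h1 h2 => cap_of_real (by omega) hK hP hR hI A S hAS h1 h2
  have hO : ∀ i j, P i i j → ¬ P j j i := oriented hK hP hR hI
  have h2 : ∀ a b c, b ≠ c → P a a b → P a a c → ¬ P a b c := by
    intro a b c hbc h1 h2 h3
    have hab : a ≠ b := by
      rintro rfl
      exact hP.irr _ h1
    have hac : a ≠ c := by
      rintro rfl
      exact hP.irr _ h2
    have := hcap {a} {a, b, c} (by simp) (by
      have q1 := hP.s12 h3
      have q2 := hP.s23 h3
      have q3 := hP.s12 q2
      have q4 := hP.s23 q1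
      have q5 := hP.s23 q3
      intro a' ha b' hb c' hc n1 n2 n3
      simp only [mem_insert, mem_singleton] at ha hb hc
      rcases ha with rfl | rfl | rfl <;> rcases hb with rfl | rfl | rfl <;>
        rcases hc with rfl | rfl | rfl <;>
        first
        | exact absurd rfl n1
        | exact absurd rfl n2
        | exact absurd rfl n3
        | assumption) (by
      intro u hu v hv n1
      simp only [mem_insert, mem_singleton] at hu hv
      subst hu
      rcases hv with rfl | rfl | rfl
      · exact absurd rfl n1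
      · exact h1
      · exact h2)
    rw [card_singleton, card_eq_three.mpr ⟨a, b, c, hab, hac, hbc, rfl⟩] at this
    omega
  have h0 : ∀ a b c, ¬ P a a b → ¬ P b b a → ¬ P a a c → ¬ P c c a → ¬ P a b c := by
    intro a b c u1 u2 u3 u4 u5
    have hab : a ≠ b := by
      rintro rfl
      exact u3 u5
    have hac : a ≠ c := by
      rintro rfl
      exact u1 (hP.s23 u5)
    have hbc : b ≠ c := by
      rintro rfl
      exact u2 (hP.s23 (hP.s12 u5))
    exact hT a b c hab hac hbc ⟨u1, u2⟩ ⟨u3, u4⟩ u5
  refine fdf_boundM hP hO h2 h0 ?_ w hw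
  rintro a b c d u1 u2 u3 u4 v1 v2 v3 v4 ⟨p1, p2, p3, p4⟩
  have hab : a ≠ b := by
    rintro rfl
    exact hP.irr _ u1
  have hbc : b ≠ c := by
    rintro rfl
    exact hP.irr _ u2
  have hcd : c ≠ d := by
    rintro rfl
    exact hP.irr _ u3
  have hda : d ≠ a := by
    rintro rfl
    exact hP.irr _ u4
  have hac : a ≠ c := by
    rintro rfl
    exact hO _ _ u1 u2
  have hbd : b ≠ d := by
    rintro rfl
    exact hO _ _ u2 u3
  have := hcap ∅ {a, b, c, d} (by simp) (by
    have a1 := hP.s12 p1
    have a2 := hP.s23 p1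
    have a3 := hP.s12 a2
    have a4 := hP.s23 a1
    have a5 := hP.s23 a3
    have b1 := hP.s12 p2
    have b2 := hP.s23 p2
    have b3 := hP.s12 b2
    have b4 := hP.s23 b1
    have b5 := hP.s23 b3
    have c1 := hP.s12 p3
    have c2 := hP.s23 p3
    have c3 := hP.s12 c2
    have c4 := hP.s23 c1
    have c5 := hP.s23 c3
    have d1 := hP.s12 p4
    have d2 := hP.s23 p4
    have d3 := hP.s12 d2
    have d4 := hP.s23 d1
    have d5 := hP.s23 d3
    intro a' ha b' hb c' hc n1 n2 n3
    simp only [mem_insert, mem_singleton] at ha hb hc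
    rcases ha with rfl | rfl | rfl | rfl <;> rcases hb with rfl | rfl | rfl | rfl <;>
      rcases hc with rfl | rfl | rfl | rfl <;>
      first
      | exact absurd rfl n1
      | exact absurd rfl n2
      | exact absurd rfl n3
      | assumption) (by
    intro u hu
    exact absurd hu (notMem_empty _))
  have hc4 : ({a, b, c, d} : Finset (Fin k)).card = 4 := by
    rw [card_insert_of_notMem, card_insert_of_notMem, card_pair hcd]
    · simp [hbc, hbd]
    · simp [hab, hac, hda.symm]
  rw [card_empty, hc4] at this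
  omega

/-- **Local theorem** for `m = 4` and triads. -/
theorem locB3 (k s : ℕ) (hk : 0 < k) : ∃ T : ℕ, 0 < T ∧
    ∀ (n : ℕ) (G : Finset (Finset (Fin n))), KFree 4 G →
    ∀ (X : Finset (Finset (Fin k))) (y : Fin k → Fin T → Fin n),
    (∀ f : Fin k → Fin T, (fun i => y i (f i)) ∈ SX G X) → (∀ i, Function.Injective (y i)) →
    rho 3 * (k : ℝ) ^ 3 < ((QT X).card : ℝ) → B3 s k T n G y := by
  obtain ⟨T', hT, h⟩ := loc 4 k s
  refine ⟨T', by omega, fun n G hK X y hsel hinj hX => ?_⟩
  obtain ⟨P, z, hP, hz, hI, hR, hPX⟩ := h n G hK X y hsel hinj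
  have : Nonempty (Fin k) := ⟨⟨0, hk⟩⟩
  by_contra hno
  have h3 : ¬ HasP (Bad3 s G) (fun i a => y i (z i a)) := fun h => hno (h.comp hz)
  have hb := pat4M hK hP hR hI
    (fun i j x hij hix hjx f1 f2 hp => h3 (bad3_real hR hI hP hij hix hjx f1 f2 hp))
    (fun _ => 1 / (k : ℝ)) (smp_uniform hk)
  exact absurd hX (not_lt.mpr (rho_le (by norm_num) (T_uniform hPX) hb))

/-- **`K_4^3`-free 3-graphs with few triads** -/
theorem thmB3 (s : ℕ) {ε : ℝ} (hε : 0 < ε) : ∃ δ : ℝ, 0 < δ ∧ ∃ N : ℕ,
    ∀ n : ℕ, N ≤ n → ∀ G : Finset (Finset (Fin n)), (∀ e ∈ G, e.card = 3) → KFree 4 G →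
      dn (Fin 3 × Fin s) (Bad3 s G) ≤ δ →
      (G.card : ℝ) ≤ (rho 3 + ε) * (n.choose 3 : ℝ) :=
  main_abs 4 (rho 3) (B3 s) (fun n G => dn (Fin 3 × Fin s) (Bad3 s G))
    (rho_nonneg (by norm_num))
    (fun k T => ⟨((k * T : ℕ) : ℝ) ^ (Fintype.card (Fin 3 × Fin s)), by positivity,
        fun n hn G => count_gen_real k T n hn (Bad3 s G)⟩)
    (fun k hk => locB3 k s hk) hε

end Pool.Agent.Helper50.FdT
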