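import Pool.Agent.Helper50.FdT.Pat

/-!
# Lagrangian form of the theorem on sub-3-graphs of Fon-der-Flaass 3-graphs
-/

set_option autoImplicit false

open Finset
open scoped Classical

namespace Pool.Agent.Helper50.FdT

open Pool.Agent.N442.K4
open Pool.Agent.H122R2.FdF (Oriented H)
open Pool.Agent.Helper35.FdM (Path3 PT Marks kk Mk main_marked)

theorem PT_ne {V : Type} {R : V → V → Prop} (hO : Oriented R) {a b c : V} (h : PT R a b c) :
    a ≠ b ∧ a ≠ c ∧ b ≠ c := by
  have o1 := hO a b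
  have o2 := hO a c
  have o3 := hO b c
  unfold PT Path3 at h
  refine ⟨?_, ?_, ?_⟩
  · rintro rfl
    have := hO a a
    tauto
  · rintro rfl
    have := hO a a
    tauto
  · rintro rfl
    have := hO b b
    tauto

/-- every three of four vertices -/
theorem three_sub {n : ℕ} {a b c d : Fin n} {e : Finset (Fin n)}
    (hS : ({a, b, c, d} : Finset (Fin n)).card = 4) (he : e ⊆ {a, b, c, d}) (h3 : e.card = 3) :
    e = {a, b, c} ∨ e = {b, c, d} ∨ e = {c, d, a} ∨ e = {d, a, b} := by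
  have key : ∀ t : Finset (Fin n), e ⊆ t → t.card ≤ 3 → e = t := fun t h1 h2 =>
    eq_of_subset_of_card_le h1 (by rw [h3]; exact h2)
  have hne : ∃ x ∈ ({a, b, c, d} : Finset (Fin n)), x ∉ e := by
    by_contra hcon
    push Not at hcon
    have := card_le_card (show ({a, b, c, d} : Finset (Fin n)) ⊆ e from hcon)
    omega
  obtain ⟨x, hx, hxe⟩ := hne
  simp only [mem_insert, mem_singleton] at hx
  rcases hx with rfl | rfl | rfl | rfl
  · right; left
    refine key _ (fun y hy => ?_) card_le_three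
    have := he hy
    simp only [mem_insert, mem_singleton] at this ⊢
    rcases this with rfl | h | h | h
    · exact absurd hy hxe
    · exact Or.inl h
    · exact Or.inr (Or.inl h)
    · exact Or.inr (Or.inr h)
  · right; right; left
    refine key _ (fun y hy => ?_) card_le_three
    have := he hy
    simp only [mem_insert, mem_singleton] at this ⊢
    rcases this with h | rfl | h | h
    · exact Or.inr (Or.inr h)
    · exact absurd hy hxe
    · exact Or.inl h
    · exact Or.inr (Or.inl h)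
  · right; right; right
    refine key _ (fun y hy => ?_) card_le_three
    have := he hy
    simp only [mem_insert, mem_singleton] at this ⊢
    rcases this with h | h | rfl | h
    · exact Or.inr (Or.inl h)
    · exact Or.inr (Or.inr h)
    · exact absurd hy hxe
    · exact Or.inl h
  · left
    refine key _ (fun y hy => ?_) card_le_three
    have := he hy
    simp only [mem_insert, mem_singleton] at this ⊢
    rcases this with h | h | h | rfl
    · exact Or.inl h
    · exact Or.inr (Or.inl h)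
    · exact Or.inr (Or.inr h)
    · exact absurd hy hxe

/-- the conditions for a triple of the Fon-der-Flaass construction -/
def Ed {V : Type} (R : V → V → Prop) (a b c : V) : Prop :=
  (((R a b ∨ R b a) ∨ (R a c ∨ R c a)) ∧ (¬ R a b ∨ ¬ R a c)) ∧
  (((R b a ∨ R a b) ∨ (R b c ∨ R c b)) ∧ (¬ R b a ∨ ¬ R b c)) ∧
  (((R c a ∨ R a c) ∨ (R c b ∨ R b c)) ∧ (¬ R c a ∨ ¬ R c b))

theorem H_of_Ed {V : Type} {R : V → V → Prop} (hO : Oriented R) {a b c : V} (h : Ed R a b c) :
    H R a b c = 0 := by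
  unfold Ed at h
  refine H_zero _ hO a b c ?_ ?_ ?_ ?_ ?_ ?_ <;> tauto

/-- the sum over the ordered triples of a 3-graph -/
theorem six_sum {n : ℕ} (w : Fin n → ℝ) (hw : ∀ v, 0 ≤ w v) (G : Finset (Finset (Fin n)))
    (h3 : ∀ e ∈ G, e.card = 3) :
    6 * ∑ e ∈ G, ∏ v ∈ e, w v ≤ ∑ a : Fin n, ∑ b : Fin n, ∑ c : Fin n,
      (if a ≠ b ∧ a ≠ c ∧ b ≠ c ∧ ({a, b, c} : Finset (Fin n)) ∈ G then w a * w b * w c else 0) := by
  set T : Finset (Fin n × Fin n × Fin n) := univ.filter fun t =>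
    t.1 ≠ t.2.1 ∧ t.1 ≠ t.2.2 ∧ t.2.1 ≠ t.2.2 ∧ ({t.1, t.2.1, t.2.2} : Finset (Fin n)) ∈ G with hT
  have e : ∑ a : Fin n, ∑ b : Fin n, ∑ c : Fin n,
      (if a ≠ b ∧ a ≠ c ∧ b ≠ c ∧ ({a, b, c} : Finset (Fin n)) ∈ G then w a * w b * w c else 0) =
      ∑ t ∈ T, w t.1 * w t.2.1 * w t.2.2 := by
    rw [hT, sum_filter, Fintype.sum_prod_type]
    refine sum_congr rfl fun a _ => ?_
    rw [Fintype.sum_prod_type]
  rw [e, ← sum_fiberwise_of_maps_to (s := T) (t := G)
    (g := fun t : Fin n × Fin n × Fin n => ({t.1, t.2.1, t.2.2} : Finset (Fin n)))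
    (fun t ht => (mem_filter.mp ht).2.2.2.2), mul_sum]
  refine sum_le_sum fun s hs => ?_
  obtain ⟨x, y, z, hxy, hxz, hyz, rfl⟩ := card_eq_three.mp (h3 s hs)
  have hp : ∏ v ∈ ({x, y, z} : Finset (Fin n)), w v = w x * w y * w z := by
    rw [prod_insert (by simp [hxy, hxz]), prod_insert (by simp [hyz]), prod_singleton]
    ring
  have hsub : ({(x, y, z), (x, z, y), (y, x, z), (y, z, x), (z, x, y), (z, y, x)} :
      Finset (Fin n × Fin n × Fin n)) ⊆
      T.filter fun t => ({t.1, t.2.1, t.2.2} : Finset (Fin n)) = {x, y, z} := by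
    have p1 : ({x, z, y} : Finset (Fin n)) = {x, y, z} := by rw [pair_comm]
    have p2 : ({y, x, z} : Finset (Fin n)) = {x, y, z} := insert_comm _ _ _
    have p3 : ({y, z, x} : Finset (Fin n)) = {x, y, z} := by rw [pair_comm, p2]
    have p4 : ({z, x, y} : Finset (Fin n)) = {x, y, z} := by rw [insert_comm, p1]
    have p5 : ({z, y, x} : Finset (Fin n)) = {x, y, z} := by rw [pair_comm, p4]
    intro t ht
    simp only [mem_insert, mem_singleton] at ht
    rw [mem_filter, hT, mem_filter]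
    rcases ht with rfl | rfl | rfl | rfl | rfl | rfl
    · exact ⟨⟨mem_univ _, hxy, hxz, hyz, hs⟩, rfl⟩
    · exact ⟨⟨mem_univ _, hxz, hxy, hyz.symm, by simpa only [p1] using hs⟩, p1⟩
    · exact ⟨⟨mem_univ _, hxy.symm, hyz, hxz, by simpa only [p2] using hs⟩, p2⟩
    · exact ⟨⟨mem_univ _, hyz, hxy.symm, hxz.symm, by simpa only [p3] using hs⟩, p3⟩
    · exact ⟨⟨mem_univ _, hxz.symm, hyz.symm, hxy, by simpa only [p4] using hs⟩, p4⟩
    · exact ⟨⟨mem_univ _, hyz.symm, hxz.symm, hxy.symm, by simpa only [p5] using hs⟩, p5⟩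
  refine le_trans (le_of_eq ?_) (sum_le_sum_of_subset_of_nonneg hsub
    (fun t _ _ => mul_nonneg (mul_nonneg (hw _) (hw _)) (hw _)))
  rw [hp]
  have hyx := hxy.symm
  have hzx := hxz.symm
  have hzy := hyz.symm
  rw [sum_insert, sum_insert, sum_insert, sum_insert, sum_insert, sum_singleton]
  · ring
  all_goals simp [hxy, hxz, hyz, hyx, hzx, hzy]

/-- **the Lagrangian of a `K_4^3`-free subgraph of a Fon-der-Flaass 3-graph**, unit total weight -/
theorem sub_unit {n : ℕ} (R : Fin n → Fin n → Prop) (hO : Oriented R) (G : Finset (Finset (Fin n)))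
    (h3 : ∀ e ∈ G, e.card = 3)
    (hG : ∀ a b c : Fin n, a ≠ b → a ≠ c → b ≠ c → ({a, b, c} : Finset (Fin n)) ∈ G → Ed R a b c)
    (hK : ∀ S : Finset (Fin n), S.card = 4 → ∃ e ⊆ S, e.card = 3 ∧ e ∉ G)
    (w : Fin n → ℝ) (hw : ∀ v, 0 ≤ w v) (h1 : ∑ v, w v = 1) :
    ∑ e ∈ G, ∏ v ∈ e, w v ≤ 5 / 54 := by
  set K : Fin n → Fin n → Fin n → Prop :=
    fun a b c => PT R a b c ∧ ({a, b, c} : Finset (Fin n)) ∉ G with hKdef
  have hMk : Marks R K := by
    refine ⟨?_, ?_, ?_, ?_⟩
    · rintro a b c ⟨h, h'⟩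
      refine ⟨PT_s12 h, fun q => h' ?_⟩
      rwa [insert_comm] at q
    · rintro a b c ⟨h, h'⟩
      refine ⟨PT_s23 h, fun q => h' ?_⟩
      rwa [pair_comm] at q
    · rintro a b c ⟨h, -⟩
      exact h
    · intro a b c d u1 u2 u3 u4 v1 v2 v3 v4
      have p1 : PT R a b c := Or.inl ⟨u1, u2, v1, v2⟩
      have p2 : PT R b c d := Or.inl ⟨u2, u3, v3, v4⟩
      have p3 : PT R c d a := Or.inl ⟨u3, u4, v2, v1⟩
      have p4 : PT R d a b := Or.inl ⟨u4, u1, v4, v3⟩
      obtain ⟨hab, hac, hbc⟩ := PT_ne hO p1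
      obtain ⟨-, hbd, hcd⟩ := PT_ne hO p2
      obtain ⟨hda, -, -⟩ := PT_ne hO p4
      have h4 : ({a, b, c, d} : Finset (Fin n)).card = 4 := by
        rw [card_insert_of_notMem, card_insert_of_notMem, card_pair hcd]
        · simp [hbc, hbd]
        · simp [hab, hac, hda.symm]
      obtain ⟨e, he, he3, heG⟩ := hK _ h4
      rcases three_sub h4 he he3 with rfl | rfl | rfl | rfl
      · exact Or.inl ⟨p1, heG⟩
      · exact Or.inr (Or.inl ⟨p2, heG⟩)
      · exact Or.inr (Or.inr (Or.inl ⟨p3, heG⟩))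
      · exact Or.inr (Or.inr (Or.inr ⟨p4, heG⟩))
  have hT := main_marked R K w hO hMk hw h1
  have key : ∀ a b c : Fin n,
      (if a ≠ b ∧ a ≠ c ∧ b ≠ c ∧ ({a, b, c} : Finset (Fin n)) ∈ G then w a * w b * w c else 0) +
      (w a * w b * w c * H R a b c + w a * w b * w c * kk K a b c) ≤ w a * w b * w c := by
    intro a b c
    have hwn : 0 ≤ w a * w b * w c := mul_nonneg (mul_nonneg (hw a) (hw b)) (hw c)
    have hH := H_le_one R hO a b c
    have hHw : w a * w b * w c * H R a b c ≤ w a * w b * w c * 1 :=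
      mul_le_mul_of_nonneg_left hH hwn
    by_cases hm : a ≠ b ∧ a ≠ c ∧ b ≠ c ∧ ({a, b, c} : Finset (Fin n)) ∈ G
    · rw [if_pos hm]
      have hz : H R a b c = 0 := H_of_Ed hO (hG a b c hm.1 hm.2.1 hm.2.2.1 hm.2.2.2)
      have hk : kk K a b c = 0 := by
        unfold kk
        rw [if_neg]
        exact fun h => h.2 hm.2.2.2
      rw [hz, hk]
      linarith
    · rw [if_neg hm]
      by_cases hk : K a b c
      · rw [H_path R hO a b c hk.1]
        unfold kk
        rw [if_pos hk]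
        linarith
      · unfold kk
        rw [if_neg hk]
        linarith
  have hone : ∑ a, ∑ b, ∑ c, w a * w b * w c = 1 := by
    have : ∑ a, ∑ b, ∑ c, w a * w b * w c = (∑ a, w a) * (∑ b, w b) * ∑ c, w c := by
      rw [sum_mul_sum, sum_mul]
      refine sum_congr rfl fun a _ => ?_
      rw [sum_mul]
      refine sum_congr rfl fun b _ => ?_
      rw [mul_sum]
    rw [this, h1]; norm_num
  have hsum : (∑ a : Fin n, ∑ b : Fin n, ∑ c : Fin n,
      (if a ≠ b ∧ a ≠ c ∧ b ≠ c ∧ ({a, b, c} : Finset (Fin n)) ∈ G then w a * w b * w c else 0)) +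
      (Pool.Agent.H122R2.FdF.T R w + Mk K w) ≤ 1 := by
    rw [← hone]
    unfold Pool.Agent.H122R2.FdF.T Mk
    simp only [← sum_add_distrib]
    exact sum_le_sum fun a _ => sum_le_sum fun b _ => sum_le_sum fun c _ => key a b c
  have h6 := six_sum w hw G h3
  linarith

/-- **the Lagrangian of a `K_4^3`-free subgraph of a Fon-der-Flaass 3-graph** -/
theorem sub_lag {n : ℕ} (R : Fin n → Fin n → Prop) (hO : Oriented R) (G : Finset (Finset (Fin n)))
    (h3 : ∀ e ∈ G, e.card = 3)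
    (hG : ∀ a b c : Fin n, a ≠ b → a ≠ c → b ≠ c → ({a, b, c} : Finset (Fin n)) ∈ G → Ed R a b c)
    (hK : ∀ S : Finset (Fin n), S.card = 4 → ∃ e ⊆ S, e.card = 3 ∧ e ∉ G)
    (x : Fin n → ℝ) (hx : ∀ v, 0 ≤ x v) :
    ∑ e ∈ G, ∏ v ∈ e, x v ≤ 5 / 54 * (∑ v, x v) ^ 3 := by
  set s : ℝ := ∑ v, x v with hs
  have hs0 : 0 ≤ s := sum_nonneg fun v _ => hx v
  rcases hs0.eq_or_lt with h0 | hpos
  · have hz : ∀ v, x v = 0 := fun v =>
      (sum_eq_zero_iff_of_nonneg fun v _ => hx v).mp h0.symm v (mem_univ v)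
    have : ∑ e ∈ G, ∏ v ∈ e, x v = 0 := by
      refine sum_eq_zero fun e he => ?_
      have hne : e.Nonempty := card_pos.mp (by rw [h3 e he]; norm_num)
      obtain ⟨v, hv⟩ := hne
      exact prod_eq_zero hv (hz v)
    rw [this]
    positivity
  · have h := sub_unit R hO G h3 hG hK (fun v => x v / s) (fun v => div_nonneg (hx v) hpos.le)
      (by rw [← sum_div, ← hs, div_self hpos.ne'])
    have e : ∑ e ∈ G, ∏ v ∈ e, x v / s = (∑ e ∈ G, ∏ v ∈ e, x v) / s ^ 3 := by
      rw [sum_div]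
      refine sum_congr rfl fun e he => ?_
      rw [prod_div_distrib, prod_const, h3 e he]
    rw [e, div_le_iff₀ (by positivity)] at h
    exact h

end Pool.Agent.Helper50.FdT
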