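import Mathlib

/-!
# Turán's 3-graph has no induced `K_{1,2,2}`: the finite check
-/

set_option autoImplicit false

namespace Pool.Agent.Helper50.FdT

/-- the arcs between the residues -/
def rr (a b : Fin 3) : Prop := b = a + 1

instance (a b : Fin 3) : Decidable (rr a b) := by unfold rr; infer_instance

/-- the triples of residues which are edges -/
def et (a b c : Fin 3) : Prop :=
  (((rr a b ∨ rr b a) ∨ (rr a c ∨ rr c a)) ∧ (¬ rr a b ∨ ¬ rr a c)) ∧
  (((rr b a ∨ rr a b) ∨ (rr b c ∨ rr c b)) ∧ (¬ rr b a ∨ ¬ rr b c)) ∧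
  (((rr c a ∨ rr a c) ∨ (rr c b ∨ rr b c)) ∧ (¬ rr c a ∨ ¬ rr c b))

instance (a b c : Fin 3) : Decidable (et a b c) := by unfold et; infer_instance

theorem et_no : ∀ v x x' y y' : Fin 3, ¬ (et v x y ∧ et v x y' ∧ et v x' y ∧ et v x' y' ∧
    ¬ et v x x' ∧ ¬ et v y y' ∧ ¬ et x x' y ∧ ¬ et x x' y' ∧ ¬ et x y y' ∧ ¬ et x' y y') := by
  decide +kernel

/-- the residue of a natural number -/
def res (a : ℕ) : Fin 3 := ⟨a % 3, Nat.mod_lt _ (by norm_num)⟩

theorem rr_res (a b : ℕ) : rr (res a) (res b) ↔ b % 3 = (a + 1) % 3 := by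
  unfold rr res
  rw [Fin.ext_iff, Fin.val_add]
  change b % 3 = (a % 3 + 1 % 3) % 3 ↔ _
  omega

end Pool.Agent.Helper50.FdT
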